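import Pool.Agent.Helper34_TDL.Unc

/-!
# TDL, module CL1: class 1
-/

set_option autoImplicit false

namespace Pool.Agent.TDL.H75

open Finset H34
open scoped Classical

variable {T P : Type} {X : Pos T P} {Bad : Finset T → Prop}

lemma exists_wit (x : P) (hx : x ∈ X.A) : ∃ Q, Wit X Bad x Q := by
  obtain ⟨Q, hQ, hmax⟩ := Finset.exists_max_image (X.U.powerset.filter fun R => X.N x ⊆ R)
    (F X Bad) ⟨X.U, by
      rw [Finset.mem_filter, Finset.mem_powerset]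
      exact ⟨Subset.refl _, X.sub x hx⟩⟩
  rw [Finset.mem_filter, Finset.mem_powerset] at hQ
  refine ⟨Q, hQ.2, hQ.1, fun R h1 h2 => hmax R ?_⟩
  rw [Finset.mem_filter, Finset.mem_powerset]
  exact ⟨h2, h1⟩

lemma F_eq (R : Finset T) : F X Bad R = 2 * ((S X Bad R).card : ℤ) - ph X R := by
  unfold F ph
  ring

/-- Module CL1. -/
theorem cl1 : Last1Stmt := by
  intro T P X Bad hB hX
  -- no pendants
  have hN2 : ∀ p ∈ X.A, 2 ≤ (X.N p).card := by
    intro p hp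
    by_contra hlt
    have hpos : 0 < (X.N p).card := Finset.card_pos.2 (X.ne p hp)
    obtain ⟨z, hz⟩ := Finset.card_eq_one.1 (by omega : (X.N p).card = 1)
    have hzU : z ∈ X.U := X.sub p hp (by rw [hz]; simp)
    have hJ : (J X {z}).Nonempty := ⟨p, mem_J'.2 ⟨hp, by rw [hz]⟩⟩
    obtain ⟨x, hx, -, h2⟩ := hX.pen z hzU hJ
    have h4 := hX.g4 x hx (X.N x) (X.sub x hx) (Subset.refl _)
    unfold ph at h4
    omega
  have hph : ∀ Q, Q ⊆ X.U → Q.Nonempty → 2 ≤ ph X Q := by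
    intro Q hQ hne
    by_cases hJ : (J X Q).Nonempty
    · obtain ⟨x, hx⟩ := hJ
      rw [mem_J'] at hx
      have h4 := hX.g4 x hx.1 Q hQ hx.2
      have := hN2 x hx.1
      omega
    · rw [Finset.not_nonempty_iff_eq_empty] at hJ
      have h1 := Finset.card_pos.2 hne
      unfold ph
      rw [hJ, Finset.card_empty]
      omega
  -- the set `P`
  obtain ⟨x₀, hx₀⟩ := hX.ne
  obtain ⟨Q₀, hQ₀⟩ := exists_wit (Bad := Bad) x₀ hx₀
  have hQ₀S : (S X Bad Q₀).Nonempty := by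
    have h1 := hX.g1 x₀ hx₀ Q₀ hQ₀
    have h4 := hX.g4 x₀ hx₀ Q₀ hQ₀.2.1 hQ₀.1
    have h2 := hN2 x₀ hx₀
    rw [F_eq] at h1
    rw [← Finset.card_pos]
    omega
  obtain ⟨R, hR, hmax⟩ := Finset.exists_max_image
    (X.U.powerset.filter fun R => (S X Bad R).Nonempty) (F X Bad) ⟨Q₀, by
      rw [Finset.mem_filter, Finset.mem_powerset]
      exact ⟨hQ₀.2.1, hQ₀S⟩⟩
  rw [Finset.mem_filter, Finset.mem_powerset] at hR
  obtain ⟨hRU, V₀, hV₀⟩ := hR
  have hR2 : -2 ≤ F X Bad R := by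
    refine le_trans (hX.g1 x₀ hx₀ Q₀ hQ₀) (hmax Q₀ ?_)
    rw [Finset.mem_filter, Finset.mem_powerset]
    exact ⟨hQ₀.2.1, hQ₀S⟩
  have hall : ∀ R' ⊆ X.U, R'.Nonempty → F X Bad R' ≤ F X Bad R ∨ F X Bad R' ≤ -2 := by
    intro R' h1 h2
    by_cases h3 : (S X Bad R').Nonempty
    · left
      refine hmax R' ?_
      rw [Finset.mem_filter, Finset.mem_powerset]
      exact ⟨h1, h3⟩
    · right
      rw [Finset.not_nonempty_iff_eq_empty] at h3
      have := hph R' h1 h2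
      rw [F_eq, h3, Finset.card_empty]
      omega
  -- the tokened edge
  obtain ⟨x, hx, hxm, hxt⟩ := hX.tok V₀ (S_bad hV₀)
  obtain ⟨w, hw, hwV⟩ := Finset.not_subset.1 hxt
  have hwR : w ∈ R := by
    rcases Finset.mem_union.1 (S_N hV₀ hx hxm hw) with h | h
    · exact absurd h hwV
    · exact h
  obtain ⟨Q, hQ⟩ := exists_wit (Bad := Bad) x hx
  have hwQ : w ∈ Q := hQ.1 hw
  have hC := hB V₀ (S_bad hV₀)
  have hVQ : 2 ≤ (V₀ ∩ Q).card := by
    rw [← hC.two x hx hxm]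
    refine Finset.card_le_card fun a ha => ?_
    rw [Finset.mem_inter] at ha ⊢
    exact ⟨ha.2, hQ.1 ha.1⟩
  have hVH : V₀ ∈ H X Bad R Q := by
    rw [mem_H]
    refine ⟨hV₀, ?_⟩
    rw [Finset.not_disjoint_iff_nonempty_inter, ← Finset.card_pos]
    omega
  -- (H)
  have hH : 2 * ((H X Bad R Q).card : ℤ) + 1 ≤ ∑ V ∈ H X Bad R Q, cost X V Q := by
    rw [← Finset.add_sum_erase _ _ hVH]
    have h1 := three_le_cost hC hVQ
    have h2 : ∑ V ∈ (H X Bad R Q).erase V₀, (2 : ℤ) ≤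
        ∑ V ∈ (H X Bad R Q).erase V₀, cost X V Q := by
      apply Finset.sum_le_sum
      intro V hV
      have hV' := mem_H.1 (Finset.mem_of_mem_erase hV)
      exact two_le_cost (hB V (S_bad hV'.1)) hV'.2
    rw [Finset.sum_const, Finset.card_erase_of_mem hVH] at h2
    have h3 : 0 < (H X Bad R Q).card := Finset.card_pos.2 ⟨V₀, hVH⟩
    simp only [nsmul_eq_mul] at h2
    push_cast [Nat.cast_sub (by omega : 1 ≤ (H X Bad R Q).card)] at h2
    linarith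
  -- (A')
  have hA := uncross (Bad := Bad) hB Q R
  have hA1 : F X Bad (Q ∪ (R \ hit X Bad Q R)) ≤ F X Bad Q := by
    refine hQ.2.2 _ (hQ.1.trans Finset.subset_union_left) ?_
    exact Finset.union_subset hQ.2.1 (Finset.sdiff_subset.trans hRU)
  have hA2 := hall (Q ∩ R) (Finset.inter_subset_left.trans hQ.2.1)
    ⟨w, Finset.mem_inter.2 ⟨hwQ, hwR⟩⟩
  have hA3 := hX.g0 (Q ∩ R) (Finset.inter_subset_left.trans hQ.2.1)
    ⟨w, Finset.mem_inter.2 ⟨hwQ, hwR⟩⟩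
  -- (C)
  have hC1 := rem_hit (Bad := Bad) hB R Q
  have hwC : w ∈ Q \ hit X Bad R Q :=
    Finset.mem_sdiff.2 ⟨hwQ, fun h => (Finset.disjoint_left.1 hit_disj) h hwR⟩
  have hC2 := hall (Q \ hit X Bad R Q) (Finset.sdiff_subset.trans hQ.2.1) ⟨w, hwC⟩
  have hC3 := hX.g0 (Q \ hit X Bad R Q) (Finset.sdiff_subset.trans hQ.2.1) ⟨w, hwC⟩
  -- (D)
  have hD := sum_cost_ge (Bad := Bad) hB R Q
  have hD2 : (L X Bad R Q).card ≤ (H X Bad Q R).card := Finset.card_le_card (L_sub_H hB)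
  have hQ2 := hX.g1 x hx Q hQ
  have hR1 := hX.g0 R hRU ⟨w, hwR⟩
  have h3 : 0 < (H X Bad R Q).card := Finset.card_pos.2 ⟨V₀, hVH⟩
  generalize ∑ V ∈ H X Bad R Q, cost X V Q = s₁ at hH hC1
  generalize ∑ V ∈ H X Bad Q R, cost X V R = s₂ at hA hD
  generalize F X Bad (Q ∪ (R \ hit X Bad Q R)) = f₁ at hA hA1
  generalize F X Bad (Q ∩ R) = f₂ at hA hA2 hA3
  generalize F X Bad (Q \ hit X Bad R Q) = f₃ at hC1 hC2 hC3
  generalize F X Bad Q = f₄ at *
  generalize F X Bad R = f₅ at *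
  generalize (H X Bad R Q).card = k₁ at *
  generalize (H X Bad Q R).card = k₂ at *
  generalize (L X Bad R Q).card = k₃ at *
  omega

end Pool.Agent.TDL.H75
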