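import Pool.Agent.Helper34_TDL.Unc

/-!
# TDL, module CONV: private tokens can be removed
-/

set_option autoImplicit false

namespace Pool.Agent.TDL.H75

open Finset H34
open scoped Classical

variable {T P : Type} {X : Pos T P} {Bad : Finset T → Prop}

lemma mem_Sall {R V : Finset T} : V ∈ Sall X Bad R ↔ V ⊆ X.U ∧ Bad V ∧ Disjoint V R ∧
    ∀ p ∈ X.A, Meets X p V → X.N p ⊆ V ∪ R := by
  simp [Sall]

lemma Sall_mem {R V : Finset T} (h : V ∈ Sall X Bad R) {p : P} (hp : p ∈ X.A)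
    (hm : Meets X p V) {a : T} (ha : a ∈ X.N p) : a ∈ V ↔ a ∉ R := by
  obtain ⟨-, -, h3, h4⟩ := mem_Sall.1 h
  constructor
  · intro h1 h2
    exact (Finset.disjoint_left.1 h3) h1 h2
  · intro h1
    rcases Finset.mem_union.1 (h4 p hp hm ha) with h2 | h2
    · exact h2
    · exact absurd h2 h1

lemma Sall_unique (hB : ∀ V, Bad V → Clu X V) {R V V' : Finset T} (h : V ∈ Sall X Bad R)
    (h' : V' ∈ Sall X Bad R) {p : P} (hp : p ∈ X.A) (hm : Meets X p V) (hm' : Meets X p V') :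
    V = V' := by
  have key : ∀ V V' : Finset T, V ∈ Sall X Bad R → V' ∈ Sall X Bad R → ¬ Disjoint V V' →
      V ⊆ V' := by
    intro V V' h h' hd
    by_contra hsub
    have hL : V ∩ V' ≠ V := fun hh => hsub (Finset.inter_eq_left.1 hh)
    have hne : (V ∩ V').Nonempty := Finset.not_disjoint_iff_nonempty_inter.1 hd
    obtain ⟨q, hq, hq1, hq2⟩ := clu_conn (hB V (mem_Sall.1 h).2.1) Finset.inter_subset_left
      hne hL
    obtain ⟨b, hb, hb'⟩ := H34.meets_iff.1 hq2
    rw [Finset.mem_sdiff, Finset.mem_inter] at hb'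
    have hmV' : Meets X q V' := mmono hq1 Finset.inter_subset_right
    have hmV : Meets X q V := mmono hq1 Finset.inter_subset_left
    have h1 := (Sall_mem h hq hmV hb).1 hb'.1
    exact hb'.2 ⟨hb'.1, (Sall_mem h' hq hmV' hb).2 h1⟩
  obtain ⟨a, ha, haV⟩ := H34.meets_iff.1 hm
  have haV' : a ∈ V' := (Sall_mem h' hp hm' ha).2 ((Sall_mem h hp hm ha).1 haV)
  have hd : ¬ Disjoint V V' := Finset.not_disjoint_iff.2 ⟨a, haV, haV'⟩
  exact Subset.antisymm (key V V' h h' hd) (key V' V h' h (fun hh => hd hh.symm))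

/-- Module CONV. -/
theorem conv : ConvStmt := by
  intro T P X Bad hB R hR
  -- the non viable members
  set D : Finset (Finset T) := (Sall X Bad R).filter fun V => ¬ Viab X V with hD
  have hpriv : ∀ V ∈ D, ∃ t, t ∉ V ∧ (∃ p ∈ X.A, t ∈ X.N p ∧ Meets X p V) ∧
      ∀ p ∈ X.A, t ∈ X.N p → Meets X p V := by
    intro V hV
    have h1 := (Finset.mem_filter.1 hV).2
    unfold Viab at h1
    push Not at h1
    obtain ⟨t, ht, h2, h3⟩ := h1
    exact ⟨t, ht, h2, h3⟩
  rcases isEmpty_or_nonempty T with hemp | hnemp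
  · refine ⟨R, Subset.refl _, ?_, rfl, fun x _ h => h⟩
    have h0 : Sall X Bad R = ∅ := by
      rw [Finset.eq_empty_iff_forall_notMem]
      intro V hV
      have h3 := clu_card3 (hB V (mem_Sall.1 hV).2.1)
      have h4 : 0 < V.card := by omega
      obtain ⟨a, -⟩ := Finset.card_pos.1 h4
      exact hemp.elim a
    unfold Fall F
    rw [h0]
    simp
  choose! f hf1 hf2 hf3 using hpriv
  have hDS : ∀ V ∈ D, V ∈ Sall X Bad R := fun V hV => (Finset.mem_filter.1 hV).1
  have hfR : ∀ V ∈ D, f V ∈ R := by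
    intro V hV
    obtain ⟨p, hp, h1, h2⟩ := hf2 V hV
    by_contra hn
    exact hf1 V hV ((Sall_mem (hDS V hV) hp h2 h1).2 hn)
  have hinj : Set.InjOn f (D : Set (Finset T)) := by
    intro V hV V' hV' he
    obtain ⟨p, hp, h1, h2⟩ := hf2 V hV
    have h3 := hf3 V' hV' p hp (he ▸ h1)
    exact Sall_unique hB (hDS V hV) (hDS V' hV') hp h2 h3
  have hJN : ∀ x ∈ X.A, X.N x ⊆ R → X.N x ⊆ R \ D.image f := by
    intro x hx hN t ht
    refine Finset.mem_sdiff.2 ⟨hN ht, fun h => ?_⟩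
    obtain ⟨V, hV, rfl⟩ := Finset.mem_image.1 h
    obtain ⟨a, ha, haV⟩ := H34.meets_iff.1 (hf3 V hV x hx ht)
    exact (Finset.disjoint_left.1 (mem_Sall.1 (hDS V hV)).2.2.1) haV (hN ha)
  have hJ : J X (R \ D.image f) = J X R := by
    ext p
    rw [mem_J', mem_J']
    exact ⟨fun h => ⟨h.1, h.2.trans Finset.sdiff_subset⟩, fun h => ⟨h.1, hJN p h.1 h.2⟩⟩
  refine ⟨R \ D.image f, Finset.sdiff_subset, ?_, hJ, hJN⟩
  have himg : D.image f ⊆ R := by
    intro t ht
    obtain ⟨V, hV, rfl⟩ := Finset.mem_image.1 ht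
    exact hfR V hV
  have hcard : (D.image f).card = D.card := Finset.card_image_of_injOn hinj
  have hS : (Sall X Bad R) \ D ⊆ S X Bad (R \ D.image f) := by
    intro V hV
    obtain ⟨h1, h2⟩ := Finset.mem_sdiff.1 hV
    have hvi : Viab X V := by
      by_contra hn
      exact h2 (Finset.mem_filter.2 ⟨h1, hn⟩)
    obtain ⟨h3, h4, h5, h6⟩ := mem_Sall.1 h1
    rw [mem_S']
    refine ⟨h3, h4, hvi, h5.mono_right Finset.sdiff_subset, ?_⟩
    intro p hp hm a ha
    rcases Finset.mem_union.1 (h6 p hp hm ha) with h | h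
    · exact Finset.mem_union_left _ h
    · refine Finset.mem_union_right _ (Finset.mem_sdiff.2 ⟨h, fun hh => ?_⟩)
      obtain ⟨V', hV', rfl⟩ := Finset.mem_image.1 hh
      have h7 := hf3 V' hV' p hp ha
      have h8 := Sall_unique hB h1 (hDS V' hV') hp hm h7
      rw [← h8] at hV'
      exact h2 hV'
  have hc1 := Finset.card_le_card hS
  have hDsub : D ⊆ Sall X Bad R := fun V hV => hDS V hV
  rw [Finset.card_sdiff_of_subset hDsub] at hc1
  have hc2 : D.card ≤ (Sall X Bad R).card := Finset.card_le_card hDsub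
  have hc3 : (R \ D.image f).card = R.card - D.card := by
    rw [Finset.card_sdiff_of_subset himg, hcard]
  have hc4 : D.card ≤ R.card := by
    rw [← hcard]
    exact Finset.card_le_card himg
  unfold Fall F
  rw [hJ, hc3]
  omega

end Pool.Agent.TDL.H75
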